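import Pool.Agent.R226.BPD

/-!
# Congruences for `2^m`-coloured binary partitions modulo powers of two
-/

set_option autoImplicit false

open Pool.Agent.R226.BP

namespace Pool.Agent.Results.MP_06821b_nt.ColouredBinaryCongruence

/-- For `m ≥ 1`, `k ≥ m + 2` and all `n`: `b_{2^m}(2^(k+1) n) ≡ b_{2^m}(2^(k-1) n) mod 2^k`; and
for `k ≥ m + 1` even `b_{2^m}(2^(k+1) n) ≡ b_{2^m}(2^k n) mod 2^(k+1)`. -/
theorem result (m : ℕ) (hm : 1 ≤ m) :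
    (∀ n k : ℕ, m + 2 ≤ k →
      b (2 ^ m) (2 ^ (k + 1) * n) ≡ b (2 ^ m) (2 ^ (k - 1) * n) [ZMOD 2 ^ k]) ∧
    (∀ n k : ℕ, m + 1 ≤ k →
      b (2 ^ m) (2 ^ (k + 1) * n) ≡ b (2 ^ m) (2 ^ k * n) [ZMOD 2 ^ (k + 1)]) := by
  have h2 : ∀ n k : ℕ, m + 1 ≤ k →
      b (2 ^ m) (2 ^ (k + 1) * n) ≡ b (2 ^ m) (2 ^ k * n) [ZMOD 2 ^ (k + 1)] := by
    intro n k hk
    exact (Int.modEq_iff_dvd.mpr (main_congr hm k hk n)).symm
  refine ⟨fun n k hk => ?_, h2⟩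
  have h3 := (h2 n k (by omega)).of_dvd (pow_dvd_pow 2 (Nat.le_succ k))
  have h4 := h2 n (k - 1) (by omega)
  rw [Nat.sub_add_cancel (by omega : 1 ≤ k)] at h4
  exact h3.trans h4

end Pool.Agent.Results.MP_06821b_nt.ColouredBinaryCongruence
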